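import Mathlib
import Pool.Agent.Lq.ZFinal
import Pool.Agent.Lq.POne

set_option autoImplicit false

/-!
# The ball does not have the largest power concavity exponent in high dimension

For all large `k` there is a bounded convex domain in dimension `5k+1` whose first Dirichlet
eigenfunction has a strictly larger power concavity exponent than that of the ball.
-/

open Filter Topology Set

namespace Pool.Agent.Results.MP_61eda3_an.LargeDimension

/-- `u` is a positive Dirichlet eigenfunction of the Laplacian on `Ω` with eigenvalue `μ`: it is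
continuous on the closure of `Ω`, twice continuously differentiable on `Ω`, positive on `Ω`, zero on
the boundary of `Ω`, and the sum of its pure second derivatives is `-μ u` on `Ω`. -/
structure IsPositiveEigenfunction {n : ℕ} (Ω : Set (EuclideanSpace ℝ (Fin n)))
    (u : EuclideanSpace ℝ (Fin n) → ℝ) (μ : ℝ) : Prop where
  cont : ContinuousOn u (closure Ω)
  smooth : ContDiffOn ℝ 2 u Ω
  pos : ∀ x ∈ Ω, 0 < u x
  zero : ∀ x ∈ frontier Ω, u x = 0
  eq : ∀ x ∈ Ω, (∑ i : Fin n, fderiv ℝ (fun y => fderiv ℝ u y (EuclideanSpace.single i (1 : ℝ))) x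
    (EuclideanSpace.single i (1 : ℝ))) + μ * u x = 0

open Lq in
/-- the radial inequality fails strictly at some radius, with the exponent `8 / N` -/
theorem radial {N : ℕ} (hN8 : 8 ≤ N) {R : ℝ} (hR : 0 < R) (hR0 : F N 0 R = 0) :
    ∃ r : ℝ, 0 < r ∧ r < R ∧
      (1 - 8 / (N : ℝ)) * (deriv (F N 0) r) ^ 2 < F N 0 r * deriv (deriv (F N 0)) r := by
  have hN' : (8 : ℝ) ≤ N := by exact_mod_cast hN8
  obtain ⟨r, hr, hyr⟩ := (u_Mono N hN8).2.2.2 (1 / 2) (by norm_num)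
  have hsg := u_Signs N r hN8 hr
  have hrR : r < R := by
    by_contra hle
    have := hr.2 R hR.le (not_lt.mp hle)
    rw [hR0] at this
    exact lt_irrefl _ this
  refine ⟨r, hr.1, hrR, ?_⟩
  have hr0 : 0 < r := hr.1
  have hF : 0 < F N 0 r := hr.2 r hr0.le le_rfl
  have hode := (t_ODE N (by omega)).2 r
  have hX : X N r = (N : ℝ) / 4 := by
    have : 2 * X N r / (N : ℝ) = 1 / 2 := hyr
    field_simp at this
    linarith
  have hXd : r * deriv (F N 0) r = -(X N r * F N 0 r) := by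
    unfold X
    field_simp
  have hee : ee N r < (N : ℝ) / 2 := by
    have h1 : 1 - yy N r < gg N r := hsg.gs
    rw [hyr] at h1
    have hep : 0 < ee N r := lt_trans hsg.X0 hsg.eX
    have h2 : gg N r = X N r / ee N r := rfl
    rw [h2, lt_div_iff₀ hep, hX] at h1
    linarith
  have hee' : ee N r = X N r ^ 2 - ((N : ℝ) - 1) * X N r + r ^ 2 := rfl
  rw [hX] at hXd hee'
  set f := F N 0 r
  set f1 := deriv (F N 0) r
  set f2 := deriv (deriv (F N 0)) r
  have hN0 : (0 : ℝ) < N := by linarith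
  have key : 0 < r ^ 2 * (f * f2 - (1 - 8 / (N : ℝ)) * f1 ^ 2) := by
    have e1 : r ^ 2 * f2 = (((N : ℝ) - 1) * ((N : ℝ) / 4) - r ^ 2) * f := by
      have : r * (r * f2 + ((N : ℝ) - 1) * f1 + r * f) = 0 := by rw [hode, mul_zero]
      nlinarith
    have e2 : r ^ 2 * f1 ^ 2 = ((N : ℝ) / 4) ^ 2 * f ^ 2 := by
      have : (r * f1) ^ 2 = (-((N : ℝ) / 4 * f)) ^ 2 := by rw [hXd]
      nlinarith
    have e3 : r ^ 2 * (f * f2 - (1 - 8 / (N : ℝ)) * f1 ^ 2) =
        f ^ 2 * ((N : ℝ) / 2 - ee N r) := by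
      have : r ^ 2 * (f * f2 - (1 - 8 / (N : ℝ)) * f1 ^ 2) =
        f * (r ^ 2 * f2) - (1 - 8 / (N : ℝ)) * (r ^ 2 * f1 ^ 2) := by ring
      rw [this, e1, e2, hee']
      field_simp
      ring
    rw [e3]
    have : 0 < (N : ℝ) / 2 - ee N r := by linarith
    positivity
  have := (mul_pos_iff_of_pos_left (by positivity : (0 : ℝ) < r ^ 2)).mp key
  linarith

open Lq in
/-- the ball: its concavity exponent is strictly below `8 / N` -/
theorem ball_exp {N : ℕ} (hN8 : 8 ≤ N) :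
    ∃ (v : EuclideanSpace ℝ (Fin N) → ℝ) (ν β : ℝ),
      IsPositiveEigenfunction (Metric.ball (0 : EuclideanSpace ℝ (Fin N)) 1) v ν ∧
      0 < β ∧ β < 8 / (N : ℝ) ∧
      ∀ γ : ℝ, β ≤ γ → ¬ ConcaveOn ℝ (Metric.ball (0 : EuclideanSpace ℝ (Fin N)) 1)
        (fun x => v x ^ γ) := by
  obtain ⟨R, hR, hR0, hRpos⟩ := u_Zero N (by omega)
  obtain ⟨b1, b2⟩ := t_BEig t_Blk N R (by omega)
  obtain ⟨r, hr0, hrR, hrad⟩ := radial hN8 hR hR0
  have hN0 : (0 : ℝ) < N := by
    have : (8 : ℝ) ≤ N := by exact_mod_cast hN8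
    linarith
  have h8 : (0 : ℝ) < 8 / (N : ℝ) := by positivity
  set f1 := deriv (F N 0) r with hf1
  set G := F N 0 r * deriv (deriv (F N 0)) r - (1 - 8 / (N : ℝ)) * f1 ^ 2 with hG
  have hGpos : 0 < G := by rw [hG]; linarith
  set δ := min (G / (2 * (f1 ^ 2 + 1))) (4 / (N : ℝ)) with hδ
  have hδ0 : 0 < δ := by
    rw [hδ]
    exact lt_min (by positivity) (by positivity)
  have hδ1 : δ * f1 ^ 2 < G := by
    have h1 : δ ≤ G / (2 * (f1 ^ 2 + 1)) := min_le_left _ _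
    have h2 : δ * f1 ^ 2 ≤ G / (2 * (f1 ^ 2 + 1)) * f1 ^ 2 :=
      mul_le_mul_of_nonneg_right h1 (sq_nonneg _)
    have h3 : G / (2 * (f1 ^ 2 + 1)) * f1 ^ 2 < G := by
      rw [div_mul_eq_mul_div, div_lt_iff₀ (by positivity)]
      nlinarith [sq_nonneg f1]
    linarith
  have hδ2 : δ ≤ 4 / (N : ℝ) := min_le_right _ _
  have hβ : (0 : ℝ) < 8 / (N : ℝ) - δ := by
    have : (4 : ℝ) / N < 8 / N := by
      apply div_lt_div_of_pos_right (by norm_num) hN0
    linarith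
  refine ⟨fun x => F N 0 (R * ‖x‖), R ^ 2, 8 / (N : ℝ) - δ,
    ⟨b1.continuous.continuousOn, b1.contDiffOn, ?_, ?_, fun x _ => b2 x⟩, hβ, by linarith, ?_⟩
  · intro x hx
    rw [mem_ball_zero_iff] at hx
    exact hRpos _ (by positivity) (by nlinarith [norm_nonneg x])
  · intro x hx
    rw [frontier_ball _ one_ne_zero, mem_sphere_zero_iff_norm] at hx
    change F N 0 (R * ‖x‖) = 0
    rw [hx, mul_one, hR0]
  · intro γ hγ
    refine t_Nonc t_Blk N R r γ (by omega) hR hRpos hr0 hrR (lt_of_lt_of_le hβ hγ) ?_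
    have h1 : (1 - γ) * f1 ^ 2 ≤ (1 - (8 / (N : ℝ) - δ)) * f1 ^ 2 :=
      mul_le_mul_of_nonneg_right (by linarith) (sq_nonneg _)
    have h2 : (1 - (8 / (N : ℝ) - δ)) * f1 ^ 2 = (1 - 8 / (N : ℝ)) * f1 ^ 2 + δ * f1 ^ 2 := by
      ring
    rw [hG] at hδ1
    linarith

open Lq in
/-- **For every large `k`**, in dimension `n = 5k+1`, there are a nonempty bounded convex open set
`Ω` with a positive Dirichlet eigenfunction `u`, a positive Dirichlet eigenfunction `v` of the unit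
ball, and a number `β < 8/n`, such that `u ^ (8/n)` is concave on `Ω` while `v ^ γ` is not concave
on the ball for any `γ ≥ β`. -/
theorem result : ∀ᶠ k : ℕ in atTop,
    ∃ (Ω : Set (EuclideanSpace ℝ (Fin (5 * k + 1))))
      (u v : EuclideanSpace ℝ (Fin (5 * k + 1)) → ℝ) (μ ν β : ℝ),
      IsOpen Ω ∧ Convex ℝ Ω ∧ Bornology.IsBounded Ω ∧ Ω.Nonempty ∧
      IsPositiveEigenfunction Ω u μ ∧
      IsPositiveEigenfunction (Metric.ball (0 : EuclideanSpace ℝ (Fin (5 * k + 1))) 1) v ν ∧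
      0 < β ∧ β < 8 / (5 * (k : ℝ) + 1) ∧
      ConcaveOn ℝ Ω (fun x => u x ^ (8 / (5 * (k : ℝ) + 1))) ∧
      ∀ γ : ℝ, β ≤ γ → ¬ ConcaveOn ℝ (Metric.ball (0 : EuclideanSpace ℝ (Fin (5 * k + 1))) 1)
        (fun x => v x ^ γ) := by
  obtain ⟨d, c, b, ks, th, hOK⟩ := lim_of_one one_thm
  filter_upwards [eventually_ge_atTop 13, t_Out d c b ks th hOK] with k hk13 hk
  have hk' : (13 : ℝ) ≤ k := by exact_mod_cast hk13
  have hcomp : IsCompact (closure (D0 k d c b ks th)) :=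
    Metric.isCompact_of_isClosed_isBounded isClosed_closure hk.bd.closure
  obtain ⟨ε0, hε0, hT⟩ := LQL.thin2 (d + 1) (wj k d c) (closure (D0 k d c b ks th))
    (8 / (5 * (k : ℝ) - 7)) (by omega) (fun j => AFin.contDiff_W t_Blk (by omega) d _) hcomp
    (div_pos (by norm_num) (by linarith)) (by
      rw [div_le_div_iff₀ (by linarith) (by norm_num)]
      linarith)
    hk.nonneg (closure_mono (fun x hx => ⟨subset_closure hx, hx.2.2.2.2.1⟩))
    hk.ineqB hk.ineqC (fun x hx hx0 => hk.grad x hx hx0)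
  set xi : ℝ := 1 / ε0 + 1 with hxi
  have hxi0 : 0 < 1 / ε0 := by positivity
  have hxipos : 0 < xi := by linarith
  have hlt : (xi ^ 2)⁻¹ < ε0 := by
    rw [inv_lt_comm₀ (by positivity) hε0]
    have : 1 / ε0 < xi ^ 2 := by nlinarith
    rwa [one_div] at this
  obtain ⟨Ω, u, μ, o1, o2, o3, o4, o5, o6, o7, o8, o9, o10⟩ :=
    AFin.dom_of_thin t_Blk t_CZ t_Star (t_Eig t_Blk t_DegA t_CZ t_Lap) t_Pull hk13 hOK.hdeg hk
      hxipos ⟨by norm_num, hT (xi ^ 2)⁻¹ (by positivity) hlt⟩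
  obtain ⟨v, ν, β, hv, hβ0, hβ, hcon⟩ := ball_exp (N := 5 * k + 1) (by omega)
  have hcast : (((5 * k + 1 : ℕ)) : ℝ) = 5 * (k : ℝ) + 1 := by push_cast; ring
  rw [hcast] at hβ
  exact ⟨Ω, u, v, μ, ν, β, o1, o2, o3, o4, ⟨o5, o6, o7, o8, o9⟩, hv, hβ0, hβ, o10, hcon⟩

end Pool.Agent.Results.MP_61eda3_an.LargeDimension
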