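import Mathlib
import Pool.Agent.Lib_helper51.Lind.Main2
import Pool.Agent.Lib_helper51.Lind.Low

set_option autoImplicit false

/-!
# The disc maximises the concavity exponent of the first Dirichlet eigenfunction

In dimensions `n ≤ 2` the best power concavity exponent of the first Dirichlet eigenfunction of a
bounded convex domain is at most that of the ball; in dimensions `n ≥ 2` it is at most the exponent
of the planar disc.
-/

open Filter Topology Set

namespace Pool.Agent.Results.MP_61eda3_an.PlanarDisc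

/-- `u` is a positive Dirichlet eigenfunction of the Laplacian on `Ω` with eigenvalue `μ`: it is
continuous on the closure of `Ω`, twice continuously differentiable on `Ω`, positive on `Ω`, zero on
the boundary of `Ω`, and the sum of its pure second derivatives is `-μ u` on `Ω`. -/
structure IsPositiveEigenfunction {n : ℕ} (Ω : Set (EuclideanSpace ℝ (Fin n)))
    (u : EuclideanSpace ℝ (Fin n) → ℝ) (μ : ℝ) : Prop where
  cont : ContinuousOn u (closure Ω)
  smooth : ContDiffOn ℝ 2 u Ω
  pos : ∀ x ∈ Ω, 0 < u x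
  zero : ∀ x ∈ frontier Ω, u x = 0
  eq : ∀ x ∈ Ω, (∑ i : Fin n, fderiv ℝ (fun y => fderiv ℝ u y (EuclideanSpace.single i (1 : ℝ))) x
    (EuclideanSpace.single i (1 : ℝ))) + μ * u x = 0

/-- Let `m = min n 2`. If `u` is a positive Dirichlet eigenfunction of a bounded convex open set `Ω`
in dimension `n`, `v` is one of the unit ball in dimension `m`, and `u ^ α` is concave for some
`α > 0`, then `v ^ α` is concave. -/
theorem result (n m : ℕ) (hm : m = min n 2)
    (Ω : Set (EuclideanSpace ℝ (Fin n))) (u : EuclideanSpace ℝ (Fin n) → ℝ)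
    (v : EuclideanSpace ℝ (Fin m) → ℝ) (μ ν α : ℝ)
    (hΩ : IsOpen Ω) (_ : Convex ℝ Ω) (hb : Bornology.IsBounded Ω) (hne : Ω.Nonempty)
    (hu : IsPositiveEigenfunction Ω u μ)
    (hv : IsPositiveEigenfunction (Metric.ball (0 : EuclideanSpace ℝ (Fin m)) 1) v ν)
    (hα : 0 < α) (hcon : ConcaveOn ℝ Ω (fun x => u x ^ α)) :
    ConcaveOn ℝ (Metric.ball (0 : EuclideanSpace ℝ (Fin m)) 1) (fun x => v x ^ α) := by
  have huq : ∀ x ∈ Ω, (∑ i, Pool.Lind.pd (Pool.Lind.pd u i) i x) + μ * u x = 0 := hu.eq
  have hvq : ∀ x ∈ Metric.ball (0 : EuclideanSpace ℝ (Fin m)) 1,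
    (∑ i, Pool.Lind.pd (Pool.Lind.pd v i) i x) + ν * v x = 0 := hv.eq
  rcases Nat.lt_or_ge n 2 with hn | hn
  · have hmn : m = n := by omega
    subst hmn
    interval_cases m
    · -- dimension zero
      refine ⟨convex_ball _ _, ?_⟩
      intro x _ y _ a b _ _ hab
      have h1 : x = 0 := Subsingleton.elim _ _
      have h2 : y = 0 := Subsingleton.elim _ _
      have h3 : a • x + b • y = 0 := Subsingleton.elim _ _
      rw [h3, h1, h2, ← add_smul, hab, one_smul]
    · -- dimension one
      have hα1 := Pool.Lind.exponent_le_one hΩ hb hne hu.cont hu.smooth hu.pos hu.zero huq hα hcon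
      have hν := Pool.Lind.eigenvalue_pos le_rfl Metric.isOpen_ball Metric.isBounded_ball
        ⟨0, Metric.mem_ball_self one_pos⟩ hv.cont hv.smooth hv.pos hv.zero hvq
      exact Pool.Lind.concave_dim_one Metric.isOpen_ball (convex_ball _ _) hv.smooth hv.pos hν hvq
        hα hα1
  · have hm2 : m = 2 := by omega
    subst hm2
    exact Pool.Lind.disc_bound hn hΩ hb hne hu.cont hu.smooth hu.pos hu.zero huq
      ⟨hv.cont, hv.smooth, hv.pos, hv.zero, hvq⟩ hα hcon

end Pool.Agent.Results.MP_61eda3_an.PlanarDisc
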